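import Pool.Agent.W36.GV.GV4

/-! Polynomial phases. -/

set_option autoImplicit false

namespace Pool.Agent.W36.GV

open Finset Pool.Agent.W36.GU Pool.Agent.W41.FU Pool.Agent.W41 Pool.Agent.H499R2.ND Pool.Agent.H499R2.CO Polynomial

/-- `exp (2 π i θ)` -/
noncomputable def ex (θ : ℝ) : ℂ := Complex.exp (2 * Real.pi * θ * Complex.I)

theorem ex_norm (θ : ℝ) : ‖ex θ‖ = 1 := by
  unfold ex
  have : (2 * (Real.pi : ℂ) * θ * Complex.I) = ((2 * Real.pi * θ : ℝ) : ℂ) * Complex.I := by push_cast; ring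
  rw [this]
  exact Complex.norm_exp_ofReal_mul_I _

theorem ex_conj (θ η : ℝ) : starRingEnd ℂ (ex θ) * ex η = ex (η - θ) := by
  unfold ex
  rw [← Complex.exp_conj, ← Complex.exp_add]
  congr 1
  simp only [map_mul, Complex.conj_ofReal, Complex.conj_I]
  have : starRingEnd ℂ 2 = 2 := by
    have := Complex.conj_ofReal 2
    simpa using this
  rw [this]
  push_cast
  ring

theorem comp_deg {P : ℝ[X]} {d : ℕ} (hP : P.natDegree ≤ d + 1) (t : ℤ) :
    (P.comp (X + C (t : ℝ)) - P).natDegree ≤ d := by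
  by_cases hd : P.natDegree = 0
  · obtain ⟨c, rfl⟩ : ∃ c, P = C c := ⟨P.coeff 0, eq_C_of_natDegree_eq_zero hd⟩
    simp
  · have hP0 : P ≠ 0 := by rintro rfl; simp at hd
    have h1 : (P.comp (X + C (t : ℝ))).natDegree = P.natDegree := by
      rw [natDegree_comp, natDegree_X_add_C, mul_one]
    have h2 : (P.comp (X + C (t : ℝ))).leadingCoeff = P.leadingCoeff := by
      rw [leadingCoeff_comp (by rw [natDegree_X_add_C]; norm_num), leadingCoeff_X_add_C, one_pow, mul_one]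
    have hQ0 : P.comp (X + C (t : ℝ)) ≠ 0 := by
      intro h
      rw [h, leadingCoeff_zero] at h2
      exact hP0 (leadingCoeff_eq_zero.1 h2.symm)
    have h3 : (P.comp (X + C (t : ℝ)) - P).degree < P.degree := by
      have := degree_sub_lt_left (p := P.comp (X + C (t : ℝ))) (q := P)
        (by rw [degree_eq_natDegree hQ0, degree_eq_natDegree hP0, h1]) hQ0 h2
      rw [degree_eq_natDegree hQ0, h1, ← degree_eq_natDegree hP0] at this
      exact this
    rcases eq_or_ne (P.comp (X + C (t : ℝ)) - P) 0 with h4 | h4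
    · rw [h4]; simp
    · have h5 := natDegree_lt_natDegree h4 h3
      omega

theorem ph_poly (d : ℕ) : ∀ P : ℝ[X], P.natDegree ≤ d → Ph d (fun n => ex (P.eval (n : ℝ))) := by
  induction d with
  | zero =>
    intro P hP
    obtain ⟨c, rfl⟩ : ∃ c, P = C c := ⟨P.coeff 0, eq_C_of_natDegree_eq_zero (Nat.le_zero.1 hP)⟩
    exact ⟨ex c, (ex_norm c).le, fun n => by simp⟩
  | succ d ih =>
    intro P hP
    refine ⟨fun n => (ex_norm _).le, fun t => ?_⟩
    have h1 := ih _ (comp_deg hP t)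
    have e : (fun n : ℤ => ex ((P.comp (X + C (t : ℝ)) - P).eval (n : ℝ)))
        = fun n : ℤ => starRingEnd ℂ (ex (P.eval (n : ℝ))) * ex (P.eval ((n + t : ℤ) : ℝ)) := by
      ext n
      rw [ex_conj, eval_sub, eval_comp, eval_add, eval_X, eval_C]
      push_cast
      rfl
    rw [e] at h1
    exact h1

/-- orthogonality to polynomial phases -/
theorem poly_orth {k : ℕ} {s : ℤ} (H : ∀ κ : ℝ, 0 < κ → ∃ X0 : ℕ, ∀ X : ℕ, X0 ≤ X → ∀ f ∈ Bal s, ∀ M N : ℕ,
      M ≤ N → N ≤ X → GN (k + 1) (win M N f) X ≤ κ * (X : ℝ) ^ (k + 2)) (hs : s = 1 ∨ s = -1) {ε : ℝ} (hε : 0 < ε) :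
    ∃ X0 : ℕ, ∀ X : ℕ, X0 ≤ X → ∀ f ∈ Bal s, ∀ M N : ℕ, M ≤ N → N ≤ X → ∀ P : ℝ[X], P.natDegree ≤ k →
      ‖∑ n ∈ Ioc M N, (f (n : ℕ) : ℂ) * ex (P.eval (n : ℝ))‖ ≤ ε * X := by
  obtain ⟨δ, hδ, h⟩ := phases k ε hε
  obtain ⟨X0, h0⟩ := H δ hδ
  refine ⟨X0 + 1, fun X hX f hf M N hMN hN P hP => ?_⟩
  have h1 := h X (by omega) (win M N f) (win_abs (fun n => Bal_abs hs hf n) _ _) (win_sup _ _ hN)
    (h0 X (by omega) f hf M N hMN hN) _ (ph_poly k P hP)
  have e : ∑ n ∈ Icc (1 : ℤ) X, (win M N f n : ℂ) * ex (P.eval (n : ℝ)) = ∑ n ∈ Ioc M N, (f (n : ℕ) : ℂ) * ex (P.eval (n : ℝ)) := by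
    rw [sum_cast]
    symm
    have e1 : ∀ n ∈ Ioc M N, (f (n : ℕ) : ℂ) * ex (P.eval (n : ℝ)) = (win M N f (n : ℕ) : ℂ) * ex (P.eval (((n : ℕ) : ℤ) : ℝ)) := by
      intro n hn
      rw [mem_Ioc] at hn
      unfold win
      rw [if_pos (by omega)]
      push_cast
      rfl
    rw [sum_congr rfl e1]
    apply sum_subset
    · intro n hn
      rw [mem_Ioc] at hn
      rw [mem_Icc]
      omega
    · intro n _ hn
      rw [mem_Ioc] at hn
      unfold win
      rw [if_neg (by omega)]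
      simp
  rw [e] at h1
  exact h1

end Pool.Agent.W36.GV
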