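import Pool.Agent.W36.GU.GU2

/-! Gowers norms of all orders for functions supported in an interval. -/

set_option autoImplicit false

namespace Pool.Agent.W36.GV

open Finset Pool.Agent.W36.GU

/-- the multiplicative derivative -/
def De (t : ℤ) (F : ℤ → ℝ) : ℤ → ℝ := fun n => F n * F (n + t)

/-- the `2 ^ k`-th power of the unnormalised Gowers norm of order `k` -/
noncomputable def GN : ℕ → (ℤ → ℝ) → ℕ → ℝ
  | 0, F, X => ∑ n ∈ Icc (1 : ℤ) X, F n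
  | k + 1, F, X => ∑ t ∈ Icc (-(X : ℤ)) X, GN k (De t F) X

/-- bounded by one -/
def B1 (F : ℤ → ℝ) : Prop := ∀ n, |F n| ≤ 1

theorem De_B1 {F : ℤ → ℝ} (h : B1 F) (t : ℤ) : B1 (De t F) := fun n => der_abs h t n

theorem De_sup {F : ℤ → ℝ} {X : ℕ} (h : Sup F X) (t : ℤ) : Sup (De t F) X := der_sup h t

theorem De_zero {F : ℤ → ℝ} {X : ℕ} (h : Sup F X) {t : ℤ} (ht : (X : ℤ) ≤ |t|) : De t F = fun _ => 0 := by
  ext n
  by_contra hne
  unfold De at hne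
  have h1 := h n (left_ne_zero_of_mul hne)
  have h2 := h (n + t) (right_ne_zero_of_mul hne)
  rw [le_abs] at ht
  omega

theorem GN_null (k : ℕ) (X : ℕ) : GN k (fun _ => 0) X = 0 := by
  induction k with
  | zero => simp [GN]
  | succ k ih =>
    unfold GN
    apply sum_eq_zero
    intro t _
    have : De t (fun _ => (0 : ℝ)) = fun _ => 0 := by ext n; simp [De]
    rw [this, ih]

theorem GN_one {F : ℤ → ℝ} {X : ℕ} (h : Sup F X) : GN 1 F X = (GN 0 F X) ^ 2 := by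
  unfold GN
  unfold GN
  unfold De
  rw [sum_comm, sq, sum_mul]
  apply sum_congr rfl
  intro n hn
  rw [← mul_sum, shift_sum h (mem_Icc.1 hn)]

theorem GN_nonneg (k : ℕ) {X : ℕ} : ∀ {F : ℤ → ℝ}, Sup F X → 0 ≤ GN (k + 1) F X := by
  induction k with
  | zero => intro F h; rw [GN_one h]; positivity
  | succ k ih =>
    intro F h
    rw [GN]
    exact sum_nonneg fun t _ => ih (De_sup h t)

theorem GN_le (k : ℕ) {X : ℕ} (hX : 1 ≤ X) : ∀ {F : ℤ → ℝ}, B1 F → |GN k F X| ≤ 3 ^ k * (X : ℝ) ^ (k + 1) := by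
  have hX1 : (1 : ℝ) ≤ X := by exact_mod_cast hX
  induction k with
  | zero =>
    intro F h
    unfold GN
    refine (abs_sum_le_sum_abs _ _).trans ((sum_le_card_nsmul _ _ _ (fun n _ => h n)).trans ?_)
    rw [Int.card_Icc]
    simp
  | succ k ih =>
    intro F h
    rw [GN]
    refine (abs_sum_le_sum_abs _ _).trans ((sum_le_card_nsmul _ _ _ (fun t _ => ih (De_B1 h t))).trans ?_)
    rw [nsmul_eq_mul, Int.card_Icc]
    have h1 : (((X : ℤ) + 1 - -(X : ℤ)).toNat : ℝ) ≤ 3 * X := by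
      have : ((X : ℤ) + 1 - -(X : ℤ)).toNat = 2 * X + 1 := by omega
      rw [this]; push_cast; linarith
    calc (((X : ℤ) + 1 - -(X : ℤ)).toNat : ℝ) * (3 ^ k * (X : ℝ) ^ (k + 1)) ≤ (3 * X) * (3 ^ k * (X : ℝ) ^ (k + 1)) :=
          mul_le_mul_of_nonneg_right h1 (by positivity)
      _ = _ := by ring

theorem U3_GN (g : ℤ → ℝ) (X : ℕ) : U3 g X = GN 3 g X := by
  unfold U3
  simp only [GN, De]
  rw [sum_comm]
  apply sum_congr rfl; intro a _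
  rw [sum_comm]
  apply sum_congr rfl; intro b _
  rw [sum_comm]
  apply sum_congr rfl; intro c _
  apply sum_congr rfl; intro x _
  have e1 : x + b + a = x + a + b := by ring
  have e2 : x + c + a = x + a + c := by ring
  have e3 : x + c + b = x + b + c := by ring
  have e4 : x + b + c + a = x + a + b + c := by ring
  simp only [e1, e2, e3, e4]
  ring

theorem markov {ι : Type*} (s : Finset ι) (a b : ι → ℝ) (ha : ∀ t ∈ s, 0 ≤ a t) {η B b0 : ℝ} (hη : 0 < η) (hB : 0 ≤ B)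
    (hb : ∀ t ∈ s, b t ≤ B) (hb0 : 0 ≤ b0) (hsmall : ∀ t ∈ s, a t ≤ η → b t ≤ b0) :
    ∑ t ∈ s, b t ≤ s.card * b0 + (∑ t ∈ s, a t) / η * B := by
  have h1 : ∀ t ∈ s, b t ≤ b0 + a t / η * B := by
    intro t ht
    rcases le_or_gt (a t) η with h | h
    · have h2 := hsmall t ht h
      have h3 : 0 ≤ a t / η * B := mul_nonneg (div_nonneg (ha t ht) hη.le) hB
      linarith
    · have h2 : 1 ≤ a t / η := by rw [le_div_iff₀ hη]; linarith
      have h3 : B ≤ a t / η * B := by nlinarith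
      linarith [hb t ht]
  refine (sum_le_sum h1).trans ?_
  rw [sum_add_distrib, sum_const, nsmul_eq_mul, ← sum_mul, sum_div]

/-- phases of degree at most `k` -/
def Ph : ℕ → (ℤ → ℂ) → Prop
  | 0, φ => ∃ c : ℂ, ‖c‖ ≤ 1 ∧ ∀ n, φ n = c
  | k + 1, φ => (∀ n, ‖φ n‖ ≤ 1) ∧ ∀ t : ℤ, Ph k (fun n => starRingEnd ℂ (φ n) * φ (n + t))

theorem Ph.norm_le {k : ℕ} {φ : ℤ → ℂ} (h : Ph k φ) (n : ℤ) : ‖φ n‖ ≤ 1 := by
  cases k with
  | zero => obtain ⟨c, hc, h⟩ := h; rw [h]; exact hc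
  | succ k => exact h.1 n

theorem shift_sumC {G : ℤ → ℂ} {X : ℕ} (hG : ∀ n, G n ≠ 0 → 1 ≤ n ∧ n ≤ X) {x : ℤ} (hx : 1 ≤ x ∧ x ≤ X) :
    ∑ b ∈ Icc (-(X : ℤ)) X, G (x + b) = ∑ n ∈ Icc (1 : ℤ) X, G n := by
  have h1 : ∑ b ∈ Icc (-(X : ℤ)) X, G (x + b) = ∑ n ∈ (Icc (-(X : ℤ)) X).map (addLeftEmbedding x), G n := by
    rw [sum_map]; rfl
  rw [h1]
  symm
  apply sum_subset
  · intro n hn
    rw [mem_Icc] at hn
    rw [mem_map]
    exact ⟨n - x, by rw [mem_Icc]; omega, by simp⟩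
  · intro n _ hn
    by_contra h
    exact hn (by rw [mem_Icc]; exact hG n h)

theorem phase_sq {F : ℤ → ℝ} {X : ℕ} (hs : Sup F X) (φ : ℤ → ℂ) :
    ‖∑ n ∈ Icc (1 : ℤ) X, (F n : ℂ) * φ n‖ ^ 2
      ≤ ∑ t ∈ Icc (-(X : ℤ)) X, ‖∑ n ∈ Icc (1 : ℤ) X, (De t F n : ℂ) * (starRingEnd ℂ (φ n) * φ (n + t))‖ := by
  have h1 : ((‖∑ n ∈ Icc (1 : ℤ) X, (F n : ℂ) * φ n‖ ^ 2 : ℝ) : ℂ)
      = ∑ t ∈ Icc (-(X : ℤ)) X, ∑ n ∈ Icc (1 : ℤ) X, (De t F n : ℂ) * (starRingEnd ℂ (φ n) * φ (n + t)) := by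
    rw [norm_sq_c, mul_comm, map_sum, sum_mul, sum_comm]
    apply sum_congr rfl
    intro n hn
    have h2 := shift_sumC (G := fun m => starRingEnd ℂ ((F n : ℂ) * φ n) * ((F m : ℂ) * φ m)) (X := X) (by
      intro m hm
      apply hs
      intro h0
      apply hm
      rw [h0]; simp) (mem_Icc.1 hn)
    rw [mul_sum, ← h2]
    apply sum_congr rfl
    intro t _
    unfold De
    rw [map_mul, Complex.conj_ofReal]
    push_cast
    ring
  have h2 : ‖∑ n ∈ Icc (1 : ℤ) X, (F n : ℂ) * φ n‖ ^ 2 = ‖((‖∑ n ∈ Icc (1 : ℤ) X, (F n : ℂ) * φ n‖ ^ 2 : ℝ) : ℂ)‖ := by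
    rw [Complex.norm_real, Real.norm_eq_abs, abs_of_nonneg (by positivity)]
  rw [h2, h1]
  exact norm_sum_le _ _

theorem phase_triv {F : ℤ → ℝ} (h : B1 F) {X : ℕ} {φ : ℤ → ℂ} (hφ : ∀ n, ‖φ n‖ ≤ 1) :
    ‖∑ n ∈ Icc (1 : ℤ) X, (F n : ℂ) * φ n‖ ≤ X := by
  refine (norm_sum_le _ _).trans ?_
  have h1 : ∀ n ∈ Icc (1 : ℤ) X, ‖(F n : ℂ) * φ n‖ ≤ 1 := by
    intro n _
    rw [norm_mul, Complex.norm_real, Real.norm_eq_abs]
    exact mul_le_one₀ (h n) (norm_nonneg _) (hφ n)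
  refine (sum_le_sum h1).trans ?_
  simp

/-- functions with small Gowers norm of order `k + 1` are orthogonal to the phases of degree `k` -/
theorem phases (k : ℕ) : ∀ ε : ℝ, 0 < ε → ∃ δ : ℝ, 0 < δ ∧ ∀ X : ℕ, 1 ≤ X → ∀ F : ℤ → ℝ, B1 F → Sup F X →
    GN (k + 1) F X ≤ δ * (X : ℝ) ^ (k + 2) → ∀ φ : ℤ → ℂ, Ph k φ → ‖∑ n ∈ Icc (1 : ℤ) X, (F n : ℂ) * φ n‖ ≤ ε * X := by
  induction k with
  | zero =>
    intro ε hε
    refine ⟨ε ^ 2, by positivity, fun X hX F hF hs hG φ hφ => ?_⟩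
    obtain ⟨c, hc, h⟩ := hφ
    have e : ∑ n ∈ Icc (1 : ℤ) X, (F n : ℂ) * φ n = ((GN 0 F X : ℝ) : ℂ) * c := by
      unfold GN
      rw [Complex.ofReal_sum, sum_mul]
      apply sum_congr rfl; intro n _
      rw [h]
    rw [e, norm_mul, Complex.norm_real, Real.norm_eq_abs]
    rw [GN_one hs] at hG
    have h1 : |GN 0 F X| ≤ ε * X := by
      apply abs_le_of_sq_le_sq _ (by positivity)
      calc GN 0 F X ^ 2 ≤ ε ^ 2 * (X : ℝ) ^ (0 + 2) := hG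
        _ = _ := by ring
    calc |GN 0 F X| * ‖c‖ ≤ |GN 0 F X| * 1 := mul_le_mul_of_nonneg_left hc (abs_nonneg _)
      _ ≤ _ := by rw [mul_one]; exact h1
  | succ k ih =>
    intro ε hε
    obtain ⟨δ', hδ', h⟩ := ih (ε ^ 2 / 6) (by positivity)
    refine ⟨δ' * (ε ^ 2 / 2), by positivity, fun X hX F hF hs hG φ hφ => ?_⟩
    have hX1 : (1 : ℝ) ≤ X := by exact_mod_cast hX
    have h1 := phase_sq hs φ
    have h2 := markov (Icc (-(X : ℤ)) X) (fun t => GN (k + 1) (De t F) X)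
      (fun t => ‖∑ n ∈ Icc (1 : ℤ) X, (De t F n : ℂ) * (starRingEnd ℂ (φ n) * φ (n + t))‖)
      (fun t _ => GN_nonneg k (De_sup hs t)) (η := δ' * (X : ℝ) ^ (k + 2)) (B := X) (b0 := ε ^ 2 / 6 * X) (by positivity) (by positivity)
      (fun t _ => phase_triv (De_B1 hF t) (hφ.2 t).norm_le) (by positivity)
      (fun t _ ht => h X hX (De t F) (De_B1 hF t) (De_sup hs t) ht _ (hφ.2 t))
    have h3 : (∑ t ∈ Icc (-(X : ℤ)) X, GN (k + 1) (De t F) X) / (δ' * (X : ℝ) ^ (k + 2)) * X ≤ ε ^ 2 / 2 * X ^ 2 := by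
      have e : ∑ t ∈ Icc (-(X : ℤ)) X, GN (k + 1) (De t F) X = GN (k + 1 + 1) F X := by
        conv_rhs => rw [GN]
      rw [e, div_mul_eq_mul_div, div_le_iff₀ (by positivity)]
      calc GN (k + 1 + 1) F X * X ≤ (δ' * (ε ^ 2 / 2) * (X : ℝ) ^ (k + 1 + 2)) * X := mul_le_mul_of_nonneg_right hG (by positivity)
        _ = _ := by ring
    have h4 : ((Icc (-(X : ℤ)) X).card : ℝ) * (ε ^ 2 / 6 * X) ≤ ε ^ 2 / 2 * X ^ 2 := by
      rw [Int.card_Icc]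
      have h5 : (((X : ℤ) + 1 - -(X : ℤ)).toNat : ℝ) ≤ 3 * X := by
        have : ((X : ℤ) + 1 - -(X : ℤ)).toNat = 2 * X + 1 := by omega
        rw [this]; push_cast; linarith
      calc (((X : ℤ) + 1 - -(X : ℤ)).toNat : ℝ) * (ε ^ 2 / 6 * X) ≤ (3 * X) * (ε ^ 2 / 6 * X) :=
            mul_le_mul_of_nonneg_right h5 (by positivity)
        _ = _ := by ring
    have h5 : ‖∑ n ∈ Icc (1 : ℤ) X, (F n : ℂ) * φ n‖ ^ 2 ≤ (ε * X) ^ 2 := by
      calc _ ≤ _ := h1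
        _ ≤ _ := h2
        _ ≤ ε ^ 2 / 2 * X ^ 2 + ε ^ 2 / 2 * X ^ 2 := add_le_add h4 h3
        _ = _ := by ring
    exact le_of_sq_le_sq h5 (by positivity)

end Pool.Agent.W36.GV
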