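import Pool.Agent.W36.GV.GV1

/-! The generalised von Neumann theorem modulo a prime. -/

set_option autoImplicit false

namespace Pool.Agent.W36.GV

open Finset Pool.Agent.W36.GU

section cyc

variable {p : ℕ} [hp : Fact p.Prime]

/-- the derivative modulo `p` -/
def dz (t : ZMod p) (G : ZMod p → ℝ) : ZMod p → ℝ := fun x => G x * G (x + t)

/-- the Gowers norms modulo `p` -/
noncomputable def UN : ℕ → (ZMod p → ℝ) → ℝ
  | 0, G => ∑ x, G x
  | k + 1, G => ∑ t, UN k (dz t G)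

theorem UN_one (G : ZMod p → ℝ) : UN 1 G = (∑ x, G x) ^ 2 := by
  unfold UN
  unfold UN
  unfold dz
  rw [sum_comm, sq, sum_mul]
  apply sum_congr rfl
  intro x _
  rw [← mul_sum]
  congr 1
  exact Equiv.sum_comp (Equiv.addLeft x) G

theorem UN_nonneg (k : ℕ) : ∀ G : ZMod p → ℝ, 0 ≤ UN (k + 1) G := by
  induction k with
  | zero => intro G; rw [UN_one]; positivity
  | succ k ih => intro G; rw [UN]; exact sum_nonneg fun t _ => ih _

variable {V : Type} [AddCommGroup V] [Module (ZMod p) V] [Fintype V]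

/-- the multilinear average -/
noncomputable def La {ι : Type} (S : Finset ι) (ψ : ι → V →ₗ[ZMod p] ZMod p) (θ : V →ₗ[ZMod p] ZMod p) (g : ι → ZMod p → ℝ)
    (G : ZMod p → ℝ) : ℝ := ∑ v : V, G (θ v) * ∏ i ∈ S, g i (ψ i v)

theorem La_triv {ι : Type} (S : Finset ι) (ψ : ι → V →ₗ[ZMod p] ZMod p) (θ : V →ₗ[ZMod p] ZMod p) {g : ι → ZMod p → ℝ}
    {G : ZMod p → ℝ} (hg : ∀ i x, |g i x| ≤ 1) (hG : ∀ x, |G x| ≤ 1) : |La S ψ θ g G| ≤ Fintype.card V := by
  unfold La
  refine (abs_sum_le_sum_abs _ _).trans ?_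
  have h1 : ∀ v ∈ (univ : Finset V), |G (θ v) * ∏ i ∈ S, g i (ψ i v)| ≤ 1 := by
    intro v _
    rw [abs_mul, abs_prod]
    exact mul_le_one₀ (hG _) (prod_nonneg fun _ _ => abs_nonneg _) (prod_le_one (fun _ _ => abs_nonneg _) fun i _ => hg i _)
  refine (sum_le_sum h1).trans ?_
  simp

/-- the elimination of one form -/
theorem La_elim {ι : Type} [DecidableEq ι] {S : Finset ι} {j : ι} (hj : j ∉ S) (ψ : ι → V →ₗ[ZMod p] ZMod p)
    (θ : V →ₗ[ZMod p] ZMod p) (g : ι → ZMod p → ℝ) (hg : ∀ i x, |g i x| ≤ 1) (G : ZMod p → ℝ) {w : V} (hw0 : ψ j w = 0) (hw1 : θ w = 1) :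
    (La (insert j S) ψ θ g G) ^ 2 ≤ (Fintype.card V / p : ℝ) *
      ∑ t : ZMod p, |La S ψ θ (fun i => dz (t * ψ i w) (g i)) (dz t G)| := by
  have hp0 : (0 : ℝ) < p := by exact_mod_cast hp.out.pos
  set R : V → ℝ := fun v => G (θ v) * ∏ i ∈ S, g i (ψ i v) with hR
  have e1 : (p : ℝ) * La (insert j S) ψ θ g G = ∑ v : V, g j (ψ j v) * ∑ h : ZMod p, R (v + h • w) := by
    have e2 : ∀ h : ZMod p, La (insert j S) ψ θ g G = ∑ v : V, g j (ψ j v) * R (v + h • w) := by
      intro h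
      unfold La
      rw [← Equiv.sum_comp (Equiv.addRight (h • w))]
      apply sum_congr rfl
      intro v _
      rw [prod_insert hj]
      simp only [Equiv.coe_addRight, hR]
      have : ψ j (v + h • w) = ψ j v := by rw [map_add, map_smul, hw0, smul_zero, add_zero]
      rw [this]
      ring
    have e3 : ∑ h : ZMod p, La (insert j S) ψ θ g G = p * La (insert j S) ψ θ g G := by
      rw [sum_const, card_univ, ZMod.card, nsmul_eq_mul]
    rw [← e3]
    calc ∑ h : ZMod p, La (insert j S) ψ θ g G = ∑ h : ZMod p, ∑ v : V, g j (ψ j v) * R (v + h • w) := sum_congr rfl fun h _ => e2 h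
      _ = ∑ v : V, ∑ h : ZMod p, g j (ψ j v) * R (v + h • w) := sum_comm
      _ = _ := by
        apply sum_congr rfl; intro v _
        rw [mul_sum]
  have e4 : ((p : ℝ) * La (insert j S) ψ θ g G) ^ 2 ≤ Fintype.card V * ∑ v : V, (∑ h : ZMod p, R (v + h • w)) ^ 2 := by
    rw [e1]
    refine (sum_mul_sq_le_sq_mul_sq _ _ _).trans ?_
    apply mul_le_mul_of_nonneg_right _ (sum_nonneg fun _ _ => sq_nonneg _)
    have h1 : ∀ v ∈ (univ : Finset V), g j (ψ j v) ^ 2 ≤ 1 := by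
      intro v _
      rw [← sq_abs]
      exact pow_le_one₀ (abs_nonneg _) (hg _ _)
    refine (sum_le_sum h1).trans ?_
    simp
  have e5 : ∑ v : V, (∑ h : ZMod p, R (v + h • w)) ^ 2 = p * ∑ t : ZMod p, La S ψ θ (fun i => dz (t * ψ i w) (g i)) (dz t G) := by
    have e6 : ∀ v : V, (∑ h : ZMod p, R (v + h • w)) ^ 2 = ∑ h : ZMod p, ∑ t : ZMod p, R (v + h • w) * R (v + h • w + t • w) := by
      intro v
      rw [sq, sum_mul_sum]
      apply sum_congr rfl
      intro h _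
      rw [← Equiv.sum_comp (Equiv.addLeft h)]
      apply sum_congr rfl
      intro t _
      simp only [Equiv.coe_addLeft]
      rw [add_smul, ← add_assoc]
    have e7 : ∀ h t : ZMod p, ∑ v : V, R (v + h • w) * R (v + h • w + t • w)
        = La S ψ θ (fun i => dz (t * ψ i w) (g i)) (dz t G) := by
      intro h t
      refine (Equiv.sum_comp (Equiv.addRight (h • w)) (fun v => R v * R (v + t • w))).trans ?_
      unfold La
      apply sum_congr rfl
      intro v _
      simp only [hR, dz, map_add, map_smul, smul_eq_mul, hw1, mul_one]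
      rw [prod_mul_distrib]
      ring
    calc ∑ v : V, (∑ h : ZMod p, R (v + h • w)) ^ 2 = ∑ v : V, ∑ h : ZMod p, ∑ t : ZMod p, R (v + h • w) * R (v + h • w + t • w) :=
          sum_congr rfl fun v _ => e6 v
      _ = ∑ h : ZMod p, ∑ t : ZMod p, ∑ v : V, R (v + h • w) * R (v + h • w + t • w) := by
          rw [sum_comm]
          apply sum_congr rfl; intro h _
          rw [sum_comm]
      _ = ∑ h : ZMod p, ∑ t : ZMod p, La S ψ θ (fun i => dz (t * ψ i w) (g i)) (dz t G) :=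
          sum_congr rfl fun h _ => sum_congr rfl fun t _ => e7 h t
      _ = _ := by rw [sum_const, card_univ, ZMod.card, nsmul_eq_mul]
  rw [e5] at e4
  have e8 : ∑ t : ZMod p, La S ψ θ (fun i => dz (t * ψ i w) (g i)) (dz t G)
      ≤ ∑ t : ZMod p, |La S ψ θ (fun i => dz (t * ψ i w) (g i)) (dz t G)| := sum_le_sum fun t _ => le_abs_self _
  have e9 : (p : ℝ) ^ 2 * (La (insert j S) ψ θ g G) ^ 2 ≤ (p : ℝ) ^ 2 * ((Fintype.card V / p : ℝ) *
      ∑ t : ZMod p, |La S ψ θ (fun i => dz (t * ψ i w) (g i)) (dz t G)|) := by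
    calc (p : ℝ) ^ 2 * (La (insert j S) ψ θ g G) ^ 2 = ((p : ℝ) * La (insert j S) ψ θ g G) ^ 2 := by ring
      _ ≤ Fintype.card V * (p * ∑ t : ZMod p, La S ψ θ (fun i => dz (t * ψ i w) (g i)) (dz t G)) := e4
      _ ≤ Fintype.card V * (p * ∑ t : ZMod p, |La S ψ θ (fun i => dz (t * ψ i w) (g i)) (dz t G)|) := by
          apply mul_le_mul_of_nonneg_left _ (Nat.cast_nonneg _)
          exact mul_le_mul_of_nonneg_left e8 hp0.le
      _ = _ := by field_simp
  exact le_of_mul_le_mul_left e9 (by positivity)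

/-- two independent forms -/
theorem La_two {ι : Type} (j : ι) (ψ : ι → V →ₗ[ZMod p] ZMod p)
    (θ : V →ₗ[ZMod p] ZMod p) (g : ι → ZMod p → ℝ) (hg : ∀ i x, |g i x| ≤ 1) (G : ZMod p → ℝ) {w : V} (hw0 : ψ j w = 0) (hw1 : θ w = 1) :
    |La {j} ψ θ g G| ≤ (Fintype.card V / p : ℝ) * |∑ x, G x| := by
  have hp0 : (0 : ℝ) < p := by exact_mod_cast hp.out.pos
  have e2 : ∀ h : ZMod p, La {j} ψ θ g G = ∑ v : V, g j (ψ j v) * G (θ v + h) := by
    intro h
    unfold La
    rw [← Equiv.sum_comp (Equiv.addRight (h • w))]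
    apply sum_congr rfl
    intro v _
    rw [prod_singleton]
    simp only [Equiv.coe_addRight, map_add, map_smul, hw0, hw1, smul_eq_mul, mul_zero, add_zero, mul_one]
    ring
  have e1 : (p : ℝ) * La {j} ψ θ g G = (∑ x, G x) * ∑ v : V, g j (ψ j v) := by
    have e3 : ∑ h : ZMod p, La {j} ψ θ g G = p * La {j} ψ θ g G := by
      rw [sum_const, card_univ, ZMod.card, nsmul_eq_mul]
    rw [← e3]
    calc ∑ h : ZMod p, La {j} ψ θ g G = ∑ h : ZMod p, ∑ v : V, g j (ψ j v) * G (θ v + h) := sum_congr rfl fun h _ => e2 h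
      _ = ∑ v : V, ∑ h : ZMod p, g j (ψ j v) * G (θ v + h) := sum_comm
      _ = ∑ v : V, g j (ψ j v) * ∑ x, G x := by
        apply sum_congr rfl; intro v _
        rw [← mul_sum]
        congr 1
        exact Equiv.sum_comp (Equiv.addLeft (θ v)) G
      _ = _ := by rw [← sum_mul, mul_comm]
  have e3 : (p : ℝ) * |La {j} ψ θ g G| ≤ |∑ x, G x| * Fintype.card V := by
    have : (p : ℝ) * |La {j} ψ θ g G| = |(p : ℝ) * La {j} ψ θ g G| := by rw [abs_mul, abs_of_pos hp0]
    rw [this, e1, abs_mul]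
    apply mul_le_mul_of_nonneg_left _ (abs_nonneg _)
    refine (abs_sum_le_sum_abs _ _).trans ((sum_le_sum (fun v _ => hg j (ψ j v))).trans ?_)
    simp
  rw [div_mul_eq_mul_div, le_div_iff₀ hp0]
  linarith

end cyc

/-- The generalised von Neumann theorem: the average over a vector space of a product of `k + 2` functions of linear
forms, none of the first `k + 1` proportional to the last, is small if the last function has small Gowers norm of
order `k + 1`. -/
theorem gvn (k : ℕ) : ∀ ε : ℝ, 0 < ε → ∃ δ : ℝ, 0 < δ ∧ ∀ (p : ℕ) [Fact p.Prime] (V : Type) [AddCommGroup V]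
    [Module (ZMod p) V] [Fintype V] (ι : Type) [DecidableEq ι] (S : Finset ι) (_ : S.card = k + 1)
    (ψ : ι → V →ₗ[ZMod p] ZMod p) (θ : V →ₗ[ZMod p] ZMod p) (_ : ∀ i ∈ S, ∃ w : V, ψ i w = 0 ∧ θ w = 1)
    (g : ι → ZMod p → ℝ) (_ : ∀ i x, |g i x| ≤ 1) (G : ZMod p → ℝ) (_ : ∀ x, |G x| ≤ 1),
    UN (k + 1) G ≤ δ * (p : ℝ) ^ (k + 2) → |La S ψ θ g G| ≤ ε * Fintype.card V := by
  induction k with
  | zero =>
    intro ε hε
    refine ⟨ε ^ 2, by positivity, ?_⟩
    intro p hp V _ _ _ ι _ S hS ψ θ hw g hg G hG hU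
    obtain ⟨j, rfl⟩ := card_eq_one.1 hS
    obtain ⟨w, hw0, hw1⟩ := hw j (mem_singleton_self _)
    have hp0 : (0 : ℝ) < p := by exact_mod_cast hp.out.pos
    refine (La_two j ψ θ g hg G hw0 hw1).trans ?_
    rw [UN_one] at hU
    have h1 : |∑ x, G x| ≤ ε * p := by
      apply abs_le_of_sq_le_sq _ (by positivity)
      calc (∑ x, G x) ^ 2 ≤ ε ^ 2 * (p : ℝ) ^ (0 + 2) := hU
        _ = _ := by ring
    calc (Fintype.card V / p : ℝ) * |∑ x, G x| ≤ (Fintype.card V / p : ℝ) * (ε * p) := mul_le_mul_of_nonneg_left h1 (by positivity)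
      _ = _ := by field_simp
  | succ k ih =>
    intro ε hε
    obtain ⟨δ', hδ', h⟩ := ih (ε ^ 2 / 2) (by positivity)
    refine ⟨δ' * (ε ^ 2 / 2), by positivity, ?_⟩
    intro p hp V _ _ _ ι _ S hS ψ θ hw g hg G hG hU
    obtain ⟨j, S', hj, rfl, hS'⟩ := card_eq_succ.1 hS
    obtain ⟨w, hw0, hw1⟩ := hw j (mem_insert_self _ _)
    have hp0 : (0 : ℝ) < p := by exact_mod_cast hp.out.pos
    have hdz : ∀ (t : ZMod p) (g : ZMod p → ℝ), (∀ x, |g x| ≤ 1) → ∀ x, |dz t g x| ≤ 1 := by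
      intro t g hg x
      unfold dz
      rw [abs_mul]
      exact mul_le_one₀ (hg _) (abs_nonneg _) (hg _)
    have h1 := La_elim hj ψ θ g hg G hw0 hw1
    have h2 := markov (univ : Finset (ZMod p)) (fun t => UN (k + 1) (dz t G))
      (fun t => |La S' ψ θ (fun i => dz (t * ψ i w) (g i)) (dz t G)|)
      (fun t _ => UN_nonneg k _) (η := δ' * (p : ℝ) ^ (k + 2)) (B := Fintype.card V) (b0 := ε ^ 2 / 2 * Fintype.card V)
      (by positivity) (by positivity) (fun t _ => La_triv _ _ _ (fun i => hdz _ _ (hg i)) (hdz _ _ hG)) (by positivity)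
      (fun t _ ht => h p V ι S' hS' ψ θ (fun i hi => hw i (mem_insert_of_mem hi)) _ (fun i => hdz _ _ (hg i)) _ (hdz _ _ hG) ht)
    have h3 : (∑ t, UN (k + 1) (dz t G)) / (δ' * (p : ℝ) ^ (k + 2)) * Fintype.card V ≤ ε ^ 2 / 2 * p * Fintype.card V := by
      apply mul_le_mul_of_nonneg_right _ (Nat.cast_nonneg _)
      have e : ∑ t, UN (k + 1) (dz t G) = UN (k + 1 + 1) G := by
        conv_rhs => rw [UN]
      rw [e, div_le_iff₀ (by positivity)]
      calc UN (k + 1 + 1) G ≤ δ' * (ε ^ 2 / 2) * (p : ℝ) ^ (k + 1 + 2) := hU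
        _ = _ := by ring
    rw [card_univ, ZMod.card] at h2
    have h4 : (La (insert j S') ψ θ g G) ^ 2 ≤ (ε * Fintype.card V) ^ 2 := by
      calc _ ≤ _ := h1
        _ ≤ (Fintype.card V / p : ℝ) * (p * (ε ^ 2 / 2 * Fintype.card V) + ε ^ 2 / 2 * p * Fintype.card V) := by
            apply mul_le_mul_of_nonneg_left _ (by positivity)
            exact h2.trans (by linarith)
        _ = _ := by field_simp; ring
    exact abs_le_of_sq_le_sq h4 (by positivity)

end Pool.Agent.W36.GV
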