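import Pool.Agent.W36.GV.GV2

/-! From the integers to the integers modulo a prime; telescoping. -/

set_option autoImplicit false

namespace Pool.Agent.W36.GV

open Finset Pool.Agent.W36.GU

section

variable {p : ℕ} [hp : Fact p.Prime]

/-- the function on the residues -/
def lift (p : ℕ) (g : ℤ → ℝ) : ZMod p → ℝ := fun x => g x.valMinAbs

theorem val_eq {x : ZMod p} {n : ℤ} (h : (n : ZMod p) = x) (hn : 2 * |n| < p) : x.valMinAbs = n := by
  rw [ZMod.valMinAbs_spec]
  refine ⟨h.symm, ?_⟩
  rw [Set.mem_Ioc]
  have := neg_abs_le n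
  have := le_abs_self n
  constructor <;> linarith

theorem lift_cast (g : ℤ → ℝ) {n : ℤ} (hn : 2 * |n| < p) : lift p g (n : ZMod p) = g n := by
  unfold lift
  rw [val_eq rfl hn]

theorem dz_lift {g : ℤ → ℝ} {X : ℕ} (hs : Sup g X) (hX : 2 * X < p) (t : ZMod p) :
    dz t (lift p g) = lift p (De t.valMinAbs g) := by
  have hX' : (2 * X : ℤ) < p := by exact_mod_cast hX
  ext x
  unfold dz lift De
  by_cases h1 : g x.valMinAbs = 0
  · rw [h1, zero_mul, zero_mul]
  · have h2 := hs _ h1
    congr 1
    have e1 : (((x + t).valMinAbs : ℤ) : ZMod p) = x + t := ZMod.coe_valMinAbs _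
    have e2 : ((x.valMinAbs : ℤ) : ZMod p) = x := ZMod.coe_valMinAbs _
    have e3 : ((t.valMinAbs : ℤ) : ZMod p) = t := ZMod.coe_valMinAbs _
    have ht := ZMod.valMinAbs_mem_Ioc t
    rw [Set.mem_Ioc] at ht
    by_cases h3 : g (x + t).valMinAbs = 0
    · by_cases h4 : g (x.valMinAbs + t.valMinAbs) = 0
      · rw [h3, h4]
      · exfalso
        have h5 := hs _ h4
        apply h4
        rw [← val_eq (p := p) (x := x + t) (n := x.valMinAbs + t.valMinAbs) (by rw [Int.cast_add, e2, e3])
          (by rw [abs_of_pos (by omega)]; omega)]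
        exact h3
    · have h5 := hs _ h3
      have h6 : t.valMinAbs = (x + t).valMinAbs - x.valMinAbs := by
        apply val_eq
        · rw [Int.cast_sub, e1, e2]; ring
        · rcases abs_cases ((x + t).valMinAbs - x.valMinAbs) with h | h <;> omega
      rw [h6]
      congr 1
      ring

theorem sum_lift {β : Type*} [AddCommMonoid β] {X : ℕ} (hX : 2 * X < p) (Φ : ℤ → β) (hΦ : ∀ n : ℤ, (X : ℤ) < |n| → Φ n = 0) :
    ∑ t : ZMod p, Φ t.valMinAbs = ∑ n ∈ Icc (-(X : ℤ)) X, Φ n := by
  have hX' : (2 * X : ℤ) < p := by exact_mod_cast hX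
  have h1 : ∑ n ∈ Icc (-(X : ℤ)) X, Φ n = ∑ t ∈ (Icc (-(X : ℤ)) X).image (fun n : ℤ => (n : ZMod p)), Φ t.valMinAbs := by
    rw [sum_image]
    · apply sum_congr rfl
      intro n hn
      rw [mem_Icc] at hn
      rw [val_eq rfl (by rcases abs_cases n with h | h <;> omega)]
    · intro a ha b hb hab
      rw [mem_coe, mem_Icc] at ha hb
      have e1 := val_eq (p := p) (x := (a : ZMod p)) (n := a) rfl (by rcases abs_cases a with h | h <;> omega)
      have e2 := val_eq (p := p) (x := (a : ZMod p)) (n := b) hab.symm (by rcases abs_cases b with h | h <;> omega)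
      rw [← e1, e2]
  rw [h1]
  symm
  apply sum_subset (subset_univ _)
  intro t _ ht
  apply hΦ
  by_contra h
  push Not at h
  rw [abs_le] at h
  exact ht (mem_image.2 ⟨t.valMinAbs, mem_Icc.2 h, ZMod.coe_valMinAbs _⟩)

theorem UN_lift (k : ℕ) {X : ℕ} (hX : 2 * X < p) : ∀ g : ℤ → ℝ, Sup g X → UN k (lift p g) = GN k g X := by
  induction k with
  | zero =>
    intro g hs
    unfold UN GN lift
    rw [sum_lift hX g (by
      intro n hn
      by_contra h
      have := hs n h
      rw [abs_of_pos (by omega)] at hn
      omega)]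
    symm
    apply sum_subset
    · intro n hn
      rw [mem_Icc] at hn ⊢
      omega
    · intro n _ hn
      by_contra h
      exact hn (mem_Icc.2 (hs n h))
  | succ k ih =>
    intro g hs
    rw [UN, GN]
    have h1 : ∀ t : ZMod p, UN k (dz t (lift p g)) = GN k (De t.valMinAbs g) X := by
      intro t
      rw [dz_lift hs hX, ih _ (De_sup hs _)]
    simp only [h1]
    rw [sum_lift hX (fun n => GN k (De n g) X)]
    intro n hn
    rw [De_zero hs hn.le, GN_null]

end

/-- telescoping -/
theorem telescope {ι : Type} [Fintype ι] [DecidableEq ι] {V : Type} [Fintype V] (a b : ι → V → ℝ) {E : ℝ}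
    (h : ∀ (j : ι) (g : ι → V → ℝ), (∀ i, g i = a i ∨ g i = b i) → |∑ v, (a j v - b j v) * ∏ i ∈ univ.erase j, g i v| ≤ E) :
    |∑ v, ∏ i, a i v - ∑ v, ∏ i, b i v| ≤ Fintype.card ι * E := by
  have key : ∀ T : Finset ι, |∑ v, ∏ i, (if i ∈ T then a i v else b i v) - ∑ v, ∏ i, b i v| ≤ T.card * E := by
    intro T
    induction T using Finset.induction_on with
    | empty => simp
    | insert j T hj ih =>
      have h1 := h j (fun i => if i ∈ T then a i else b i) (fun i => by by_cases hi : i ∈ T <;> simp [hi])
      have h2 : ∀ v : V, ∏ i, (if i ∈ insert j T then a i v else b i v) - ∏ i, (if i ∈ T then a i v else b i v)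
          = (a j v - b j v) * ∏ i ∈ univ.erase j, (if i ∈ T then a i else b i) v := by
        intro v
        rw [← mul_prod_erase univ (fun i => if i ∈ insert j T then a i v else b i v) (mem_univ j),
          ← mul_prod_erase univ (fun i => if i ∈ T then a i v else b i v) (mem_univ j)]
        have e1 : ∏ i ∈ univ.erase j, (if i ∈ insert j T then a i v else b i v) = ∏ i ∈ univ.erase j, (if i ∈ T then a i else b i) v := by
          apply prod_congr rfl
          intro i hi
          have hij := ne_of_mem_erase hi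
          by_cases hiT : i ∈ T
          · simp [hiT]
          · simp [hiT, hij]
        have e2 : ∏ i ∈ univ.erase j, (if i ∈ T then a i v else b i v) = ∏ i ∈ univ.erase j, (if i ∈ T then a i else b i) v := by
          apply prod_congr rfl
          intro i _
          by_cases hiT : i ∈ T <;> simp [hiT]
        rw [e1, e2, if_pos (mem_insert_self _ _), if_neg hj]
        ring
      have h3 : ∑ v, ∏ i, (if i ∈ insert j T then a i v else b i v) - ∑ v, ∏ i, (if i ∈ T then a i v else b i v)
          = ∑ v, (a j v - b j v) * ∏ i ∈ univ.erase j, (if i ∈ T then a i else b i) v := by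
        rw [← sum_sub_distrib]
        exact sum_congr rfl fun v _ => h2 v
      rw [card_insert_of_notMem hj]
      push_cast
      calc |∑ v, ∏ i, (if i ∈ insert j T then a i v else b i v) - ∑ v, ∏ i, b i v|
          = |(∑ v, ∏ i, (if i ∈ insert j T then a i v else b i v) - ∑ v, ∏ i, (if i ∈ T then a i v else b i v))
            + (∑ v, ∏ i, (if i ∈ T then a i v else b i v) - ∑ v, ∏ i, b i v)| := by congr 1; ring
        _ ≤ _ := abs_add_le _ _
        _ ≤ E + T.card * E := by rw [h3]; exact add_le_add h1 ih
        _ = _ := by ring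
  have := key univ
  simpa using this

end Pool.Agent.W36.GV
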