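import Pool.Agent.W36.GV.GV3
import Pool.Agent.W36.GU.GU13

/-! Arithmetic progressions in invariant sets. -/

set_option autoImplicit false

namespace Pool.Agent.W36.GV

open Finset Pool.Agent.W36.GU Pool.Agent.W41.FU Pool.Agent.W41 Pool.Agent.H499R2.ND Pool.Agent.H499R2.CO

/-- the multilinear sum over progressions of `k + 2` terms -/
noncomputable def AP (k X : ℕ) (s : ℕ → ℤ) (g : ℕ → ℤ → ℝ) : ℝ :=
  ∑ q ∈ (Icc (-(X : ℤ)) X) ×ˢ (Icc (-(2 * X : ℤ)) (2 * X)), ∏ i ∈ range (k + 2), g i (s i * (q.1 + i * q.2))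

theorem sgn_abs {s : ℤ} (hs : s = 1 ∨ s = -1) (x : ℤ) : |s * x| = |x| := by
  rcases hs with rfl | rfl <;> simp

theorem AP_eq {p : ℕ} [hp : Fact p.Prime] {k X : ℕ} (hX : (4 * k + 8) * X < p) {s : ℕ → ℤ} (hs : ∀ i, s i = 1 ∨ s i = -1)
    {g : ℕ → ℤ → ℝ} (hg : ∀ i, Sup (g i) X) :
    AP k X s g = ∑ v : ZMod p × ZMod p, ∏ i ∈ range (k + 2), lift p (g i) ((s i : ZMod p) * (v.1 + i * v.2)) := by
  have hX' : ((4 * k + 8) * X : ℤ) < p := by exact_mod_cast hX
  have hX0 : (0 : ℤ) ≤ X := Int.natCast_nonneg _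
  have hk0 : (0 : ℤ) ≤ k := Int.natCast_nonneg _
  have h8 : (8 * X : ℤ) < p := by nlinarith
  have hs2 : ∀ i, (s i : ZMod p) * s i = 1 := by
    intro i
    rcases hs i with h | h <;> rw [h] <;> push_cast <;> ring
  unfold AP
  have e1 : ∀ q ∈ (Icc (-(X : ℤ)) X) ×ˢ (Icc (-(2 * X : ℤ)) (2 * X)), ∏ i ∈ range (k + 2), g i (s i * (q.1 + i * q.2))
      = ∏ i ∈ range (k + 2), lift p (g i) ((s i : ZMod p) * ((q.1 : ZMod p) + i * (q.2 : ZMod p))) := by
    intro q hq
    rw [mem_product, mem_Icc, mem_Icc] at hq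
    apply prod_congr rfl
    intro i hi
    rw [mem_range] at hi
    have e2 : (s i : ZMod p) * ((q.1 : ZMod p) + i * (q.2 : ZMod p)) = ((s i * (q.1 + i * q.2) : ℤ) : ZMod p) := by push_cast; ring
    rw [e2, lift_cast]
    rw [sgn_abs (hs i)]
    have h1 : |q.1 + i * q.2| ≤ |q.1| + i * |q.2| := by
      refine (abs_add_le _ _).trans ?_
      rw [abs_mul, abs_of_nonneg (show (0 : ℤ) ≤ i from Int.natCast_nonneg _)]
    have h2 : |q.1| ≤ X := abs_le.2 hq.1
    have h3 : |q.2| ≤ 2 * X := abs_le.2 hq.2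
    have hi' : (i : ℤ) ≤ k + 1 := by exact_mod_cast (by omega : i ≤ k + 1)
    have h4 : (i : ℤ) * |q.2| ≤ (k + 1) * (2 * X) := mul_le_mul hi' h3 (abs_nonneg _) (by omega)
    nlinarith
  rw [sum_congr rfl e1]
  have hinj : Set.InjOn (fun q : ℤ × ℤ => ((q.1 : ZMod p), (q.2 : ZMod p))) (((Icc (-(X : ℤ)) X) ×ˢ (Icc (-(2 * X : ℤ)) (2 * X)) : Finset (ℤ × ℤ)) : Set (ℤ × ℤ)) := by
    rintro ⟨a, b⟩ hq ⟨a', b'⟩ hq' h
    rw [mem_coe, mem_product, mem_Icc, mem_Icc] at hq hq'
    simp only [Prod.mk.injEq] at h hq hq'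
    obtain ⟨h1, h2⟩ := h
    have f1 := val_eq (p := p) (x := (a : ZMod p)) (n := a) rfl (by rcases abs_cases a with h | h <;> omega)
    have f2 := val_eq (p := p) (x := (a : ZMod p)) (n := a') h1.symm (by rcases abs_cases a' with h | h <;> omega)
    have f3 := val_eq (p := p) (x := (b : ZMod p)) (n := b) rfl (by rcases abs_cases b with h | h <;> omega)
    have f4 := val_eq (p := p) (x := (b : ZMod p)) (n := b') h2.symm (by rcases abs_cases b' with h | h <;> omega)
    rw [← f1, ← f3, f2, f4]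
  rw [← sum_image (f := fun v : ZMod p × ZMod p => ∏ i ∈ range (k + 2), lift p (g i) ((s i : ZMod p) * (v.1 + i * v.2))) hinj]
  apply sum_subset (subset_univ _)
  rintro ⟨a, b⟩ _ hv
  by_contra hne
  apply hv
  replace hne := prod_ne_zero_iff.1 hne
  have h0 := hg 0 _ (hne 0 (by simp))
  have h1 := hg 1 _ (hne 1 (by rw [mem_range]; omega))
  simp only [Nat.cast_zero, zero_mul, add_zero, Nat.cast_one, one_mul] at h0 h1
  set n0 := ((s 0 : ZMod p) * a).valMinAbs with hn0
  set n1 := ((s 1 : ZMod p) * (a + b)).valMinAbs with hn1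
  have c0 : (n0 : ZMod p) = (s 0 : ZMod p) * a := by rw [hn0, ZMod.coe_valMinAbs]
  have c1 : (n1 : ZMod p) = (s 1 : ZMod p) * (a + b) := by rw [hn1, ZMod.coe_valMinAbs]
  rw [mem_image]
  refine ⟨(s 0 * n0, s 1 * n1 - s 0 * n0), ?_, ?_⟩
  · rw [mem_product, mem_Icc, mem_Icc]
    simp only
    rcases hs 0 with h | h <;> rcases hs 1 with h' | h' <;> rw [h, h'] <;> omega
  · simp only [Prod.mk.injEq]
    push_cast
    rw [c0, c1, ← mul_assoc, ← mul_assoc, hs2, hs2]
    constructor <;> ring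

/-- the linear form of a term -/
def form (p : ℕ) (s : ℤ) (i : ℕ) : (ZMod p × ZMod p) →ₗ[ZMod p] ZMod p where
  toFun v := (s : ZMod p) * (v.1 + i * v.2)
  map_add' := by intro v w; simp only [Prod.fst_add, Prod.snd_add]; ring
  map_smul' := by intro c v; simp only [Prod.smul_fst, Prod.smul_snd, smul_eq_mul, RingHom.id_apply]; ring

/-- the multilinear sum is small if one function has small norm of order `k + 1` -/
theorem ap_small (k : ℕ) {ε : ℝ} (hε : 0 < ε) : ∃ δ : ℝ, 0 < δ ∧ ∀ X : ℕ, 1 ≤ X → ∀ s : ℕ → ℤ, (∀ i, s i = 1 ∨ s i = -1) →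
    ∀ g : ℕ → ℤ → ℝ, (∀ i, B1 (g i)) → (∀ i, Sup (g i) X) → ∀ j < k + 2, GN (k + 1) (g j) X ≤ δ * (X : ℝ) ^ (k + 2) →
    |AP k X s g| ≤ ε * X ^ 2 := by
  set c : ℕ := 2 * (4 * k + 8) with hc
  obtain ⟨δ, hδ, h⟩ := gvn k (ε / (c : ℝ) ^ 2) (by rw [hc]; positivity)
  refine ⟨δ, hδ, fun X hX s hs g hg hsup j hj hG => ?_⟩
  obtain ⟨p, hpp, hp1, hp2⟩ := Nat.exists_prime_lt_and_le_two_mul ((4 * k + 8) * X) (by
    have : 0 < (4 * k + 8) * X := by positivity
    omega)
  have hfact : Fact p.Prime := ⟨hpp⟩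
  rw [AP_eq (p := p) hp1 hs hsup]
  have hpX : 2 * X < p := by nlinarith
  have h1 := h p (ZMod p × ZMod p) ℕ ((range (k + 2)).erase j) (by rw [card_erase_of_mem (mem_range.2 hj), card_range]; rfl)
    (fun i => form p (s i) i) (form p (s j) j) (by
      intro i hi
      rw [mem_erase, mem_range] at hi
      have hne : ((j : ZMod p) - i) ≠ 0 := by
        intro h0
        have h2 : (((j : ℤ) - i : ℤ) : ZMod p) = 0 := by push_cast; exact h0
        rw [ZMod.intCast_zmod_eq_zero_iff_dvd] at h2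
        obtain ⟨t, ht⟩ := h2
        have hjp : (j : ℤ) < p := by
          have : j < p := by nlinarith
          exact_mod_cast this
        have hip : (i : ℤ) < p := by
          have : i < p := by nlinarith
          exact_mod_cast this
        have ht0 : t = 0 := by
          by_contra hne
          rcases lt_or_gt_of_ne hne with h5 | h5
          · have : (p : ℤ) * t ≤ (p : ℤ) * (-1) := mul_le_mul_of_nonneg_left (by omega) (by omega)
            omega
          · have : (p : ℤ) * 1 ≤ (p : ℤ) * t := mul_le_mul_of_nonneg_left (by omega) (by omega)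
            omega
        rw [ht0] at ht
        omega
      refine ⟨(-(i : ZMod p) * ((s j : ZMod p) / ((j : ZMod p) - i)), (s j : ZMod p) / ((j : ZMod p) - i)), ?_, ?_⟩
      · show (s i : ZMod p) * (-(i : ZMod p) * ((s j : ZMod p) / ((j : ZMod p) - i)) + i * ((s j : ZMod p) / ((j : ZMod p) - i))) = 0
        ring
      · show (s j : ZMod p) * (-(i : ZMod p) * ((s j : ZMod p) / ((j : ZMod p) - i)) + j * ((s j : ZMod p) / ((j : ZMod p) - i))) = 1
        have e1 : (s j : ZMod p) * (-(i : ZMod p) * ((s j : ZMod p) / ((j : ZMod p) - i)) + j * ((s j : ZMod p) / ((j : ZMod p) - i)))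
            = (s j : ZMod p) * s j := by field_simp; ring
        rw [e1]
        rcases hs j with h | h <;> rw [h] <;> push_cast <;> ring)
    (fun i => lift p (g i)) (fun i x => hg i _) (lift p (g j)) (fun x => hg j _) (by
      rw [UN_lift (k + 1) hpX (g j) (hsup j)]
      refine hG.trans ?_
      apply mul_le_mul_of_nonneg_left _ hδ.le
      apply pow_le_pow_left₀ (Nat.cast_nonneg _)
      exact_mod_cast (by omega : X ≤ p))
  have e1 : La ((range (k + 2)).erase j) (fun i => form p (s i) i) (form p (s j) j) (fun i => lift p (g i)) (lift p (g j))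
      = ∑ v : ZMod p × ZMod p, ∏ i ∈ range (k + 2), lift p (g i) ((s i : ZMod p) * (v.1 + i * v.2)) := by
    unfold La
    apply sum_congr rfl
    intro v _
    rw [← mul_prod_erase (range (k + 2)) _ (mem_range.2 hj)]
    rfl
  rw [e1] at h1
  refine h1.trans ?_
  rw [Fintype.card_prod, ZMod.card]
  have hp3 : (p : ℝ) ≤ c * X := by
    have : p ≤ c * X := by rw [hc]; nlinarith
    exact_mod_cast this
  have hc0 : (0 : ℝ) < c := by rw [hc]; positivity
  push_cast
  rw [div_mul_eq_mul_div, div_le_iff₀ (by positivity)]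
  have : (p : ℝ) * p ≤ (c * X) * (c * X) := mul_le_mul hp3 hp3 (Nat.cast_nonneg _) (by positivity)
  calc ε * ((p : ℝ) * p) ≤ ε * ((c * X) * (c * X)) := mul_le_mul_of_nonneg_left this hε.le
    _ = _ := by ring

/-- the number of the progressions `x, x + y, ..., x + (k + 1) y` with terms in given sets and of given signs and sizes -/
noncomputable def Cnt (k : ℕ) (s : ℕ → ℤ) (M N : ℕ → ℕ) (S : ℕ → Set ℤ) : ℕ :=
  {q : ℤ × ℤ | ∀ i < k + 2, q.1 + i * q.2 ∈ S i ∧ (M i : ℤ) < s i * (q.1 + i * q.2) ∧ s i * (q.1 + i * q.2) ≤ N i}.ncard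

theorem Cnt_eq {k X : ℕ} {s : ℕ → ℤ} (hs : ∀ i, s i = 1 ∨ s i = -1) {M N : ℕ → ℕ} (hN : ∀ i, N i ≤ X) (S : ℕ → Set ℤ) :
    (Cnt k s M N S : ℝ) = AP k X s (fun i => win (M i) (N i) (ind (s i) (S i))) := by
  classical
  have e1 : {q : ℤ × ℤ | ∀ i < k + 2, q.1 + i * q.2 ∈ S i ∧ (M i : ℤ) < s i * (q.1 + i * q.2) ∧ s i * (q.1 + i * q.2) ≤ N i}
      = (((Icc (-(X : ℤ)) X) ×ˢ (Icc (-(2 * X : ℤ)) (2 * X))).filter (fun q : ℤ × ℤ => ∀ i < k + 2, q.1 + i * q.2 ∈ S i ∧
        (M i : ℤ) < s i * (q.1 + i * q.2) ∧ s i * (q.1 + i * q.2) ≤ N i) : Finset (ℤ × ℤ)) := by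
    ext q
    rw [Finset.mem_coe, mem_filter]
    constructor
    · intro h
      refine ⟨?_, h⟩
      have h0 := h 0 (by omega)
      have h1 := h 1 (by omega)
      have n0 : (N 0 : ℤ) ≤ X := by exact_mod_cast hN 0
      have n1 : (N 1 : ℤ) ≤ X := by exact_mod_cast hN 1
      simp only [Nat.cast_zero, zero_mul, add_zero, Nat.cast_one, one_mul] at h0 h1
      rw [mem_product, mem_Icc, mem_Icc]
      rcases hs 0 with g0 | g0 <;> rcases hs 1 with g1 | g1 <;> rw [g0] at h0 <;> rw [g1] at h1 <;> omega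
    · intro h
      exact h.2
  unfold Cnt
  rw [e1, Set.ncard_coe_finset, card_filter]
  unfold AP
  push_cast
  apply sum_congr rfl
  intro q _
  have e2 : ∀ i : ℕ, win (M i) (N i) (ind (s i) (S i)) (s i * (q.1 + i * q.2))
      = if q.1 + i * q.2 ∈ S i ∧ (M i : ℤ) < s i * (q.1 + i * q.2) ∧ s i * (q.1 + i * q.2) ≤ N i then 1 else 0 := by
    intro i
    unfold win ind
    have : s i * (s i * (q.1 + i * q.2)) = q.1 + i * q.2 := by
      rcases hs i with h | h <;> rw [h] <;> ring
    rw [this]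
    by_cases a1 : q.1 + i * q.2 ∈ S i <;> by_cases a2 : (M i : ℤ) < s i * (q.1 + i * q.2) ∧ s i * (q.1 + i * q.2) ≤ N i <;> simp [a1, a2]
  simp only [e2]
  by_cases h : ∀ i < k + 2, q.1 + i * q.2 ∈ S i ∧ (M i : ℤ) < s i * (q.1 + i * q.2) ∧ s i * (q.1 + i * q.2) ≤ N i
  · rw [if_pos h, prod_eq_one]
    intro i hi
    rw [if_pos (h i (mem_range.1 hi))]
  · rw [if_neg h]
    push Not at h
    obtain ⟨i, hi, h2⟩ := h
    symm
    apply prod_eq_zero (mem_range.2 hi)
    rw [if_neg]
    rintro ⟨b1, b2, b3⟩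
    have := h2 b1 b2
    omega

theorem ap_tel {k X : ℕ} {s : ℕ → ℤ} (a b : ℕ → ℤ → ℝ) {E : ℝ}
    (h : ∀ j < k + 2, ∀ g : ℕ → ℤ → ℝ, (∀ i, i ≠ j → g i = a i ∨ g i = b i) → g j = (fun n => a j n - b j n) → |AP k X s g| ≤ E) :
    |AP k X s a - AP k X s b| ≤ (k + 2) * E := by
  have key : ∀ m ≤ k + 2, |AP k X s (fun i => if i < m then a i else b i) - AP k X s b| ≤ m * E := by
    intro m
    induction m with
    | zero => intro _; simp
    | succ m ih =>
      intro hm
      have h1 := h m (by omega) (fun i => if i = m then (fun n => a m n - b m n) else if i < m then a i else b i)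
        (fun i hi => by by_cases hi2 : i < m <;> simp [hi, hi2]) (by simp)
      have h2 : AP k X s (fun i => if i < m + 1 then a i else b i) - AP k X s (fun i => if i < m then a i else b i)
          = AP k X s (fun i => if i = m then (fun n => a m n - b m n) else if i < m then a i else b i) := by
        unfold AP
        rw [← sum_sub_distrib]
        apply sum_congr rfl
        intro q _
        have hmr : m ∈ range (k + 2) := mem_range.2 (by omega)
        rw [← mul_prod_erase _ _ hmr, ← mul_prod_erase _ (fun i => (if i < m then a i else b i) (s i * (q.1 + i * q.2))) hmr,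
          ← mul_prod_erase _ (fun i => (if i = m then (fun n => a m n - b m n) else if i < m then a i else b i) (s i * (q.1 + i * q.2))) hmr]
        have e1 : ∏ i ∈ (range (k + 2)).erase m, (if i < m + 1 then a i else b i) (s i * (q.1 + i * q.2))
            = ∏ i ∈ (range (k + 2)).erase m, (if i < m then a i else b i) (s i * (q.1 + i * q.2)) := by
          apply prod_congr rfl
          intro i hi
          have hne := ne_of_mem_erase hi
          by_cases h3 : i < m
          · rw [if_pos (by omega), if_pos h3]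
          · rw [if_neg (by omega), if_neg h3]
        have e2 : ∏ i ∈ (range (k + 2)).erase m, (if i = m then (fun n => a m n - b m n) else if i < m then a i else b i) (s i * (q.1 + i * q.2))
            = ∏ i ∈ (range (k + 2)).erase m, (if i < m then a i else b i) (s i * (q.1 + i * q.2)) := by
          apply prod_congr rfl
          intro i hi
          rw [if_neg (ne_of_mem_erase hi)]
        rw [e1, e2]
        simp only [if_true, lt_self_iff_false, if_false, Nat.lt_succ_self]
        ring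
      calc |AP k X s (fun i => if i < m + 1 then a i else b i) - AP k X s b|
          = |(AP k X s (fun i => if i < m + 1 then a i else b i) - AP k X s (fun i => if i < m then a i else b i))
            + (AP k X s (fun i => if i < m then a i else b i) - AP k X s b)| := by congr 1; ring
        _ ≤ _ := abs_add_le _ _
        _ ≤ E + m * E := by rw [h2]; exact add_le_add h1 (ih (by omega))
        _ = _ := by push_cast; ring
  have h1 := key (k + 2) le_rfl
  have h2 : AP k X s (fun i => if i < k + 2 then a i else b i) = AP k X s a := by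
    unfold AP
    apply sum_congr rfl; intro q _
    apply prod_congr rfl; intro i hi
    show (if i < k + 2 then a i else b i) _ = _
    rw [if_pos (mem_range.1 hi)]
  rw [h2] at h1
  push_cast at h1
  exact h1

/-- the number of progressions in invariant sets -/
theorem ap_count {k : ℕ} (H : ∀ s : ℤ, (s = 1 ∨ s = -1) → ∀ κ : ℝ, 0 < κ → ∃ X0 : ℕ, ∀ X : ℕ, X0 ≤ X → ∀ f ∈ Bal s, ∀ M N : ℕ,
      M ≤ N → N ≤ X → GN (k + 1) (win M N f) X ≤ κ * (X : ℝ) ^ (k + 2)) {ε : ℝ} (hε : 0 < ε) :
    ∃ X0 : ℕ, ∀ X : ℕ, X0 ≤ X → ∀ s : ℕ → ℤ, (∀ i, s i = 1 ∨ s i = -1) → ∀ S : ℕ → Set ℤ, (∀ i, Inv 1 (S i)) → ∀ δ : ℕ → ℝ,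
      (∀ i, HD (s i) (S i) (δ i)) → ∀ M N : ℕ → ℕ, (∀ i, M i ≤ N i) → (∀ i, N i ≤ X) →
      |(Cnt k s M N S : ℝ) - (∏ i ∈ range (k + 2), δ i) * Cnt k s M N (fun _ => Set.univ)| ≤ ε * X ^ 2 := by
  obtain ⟨η, hη, h⟩ := ap_small k (show 0 < ε / (k + 2) by positivity)
  obtain ⟨X1, h1⟩ := H 1 (Or.inl rfl) η hη
  obtain ⟨X2, h2⟩ := H (-1) (Or.inr rfl) η hη
  refine ⟨X1 + X2 + 1, fun X hX s hs S hS δ hδ M N hM hN => ?_⟩
  rw [Cnt_eq hs hN, Cnt_eq hs hN]
  have e1 : (∏ i ∈ range (k + 2), δ i) * AP k X s (fun i => win (M i) (N i) (ind (s i) Set.univ))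
      = AP k X s (fun i n => δ i * win (M i) (N i) (ind (s i) Set.univ) n) := by
    unfold AP
    rw [mul_sum]
    apply sum_congr rfl; intro q _
    rw [prod_mul_distrib]
  rw [e1]
  have hd : ∀ i, 0 ≤ δ i ∧ δ i ≤ 1 := fun i => HD_mem (hs i) (hδ i)
  have hind1 : ∀ (s : ℤ) (T : Set ℤ) (n : ℤ), |ind s T n| ≤ 1 := by
    intro s T n
    rw [abs_of_nonneg (ind_nonneg _ _ _)]
    exact ind_le_one _ _ _
  have ha : ∀ i, B1 (win (M i) (N i) (ind (s i) (S i))) := fun i => win_abs (hind1 _ _) _ _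
  have hb : ∀ i, B1 (fun n => δ i * win (M i) (N i) (ind (s i) Set.univ) n) := by
    intro i n
    rw [abs_mul, abs_of_nonneg (hd i).1]
    exact mul_le_one₀ (hd i).2 (abs_nonneg _) (win_abs (hind1 _ _) _ _ _)
  have hsa : ∀ i, Sup (win (M i) (N i) (ind (s i) (S i))) X := fun i => win_sup _ _ (hN i)
  have hsb : ∀ i, Sup (fun n => δ i * win (M i) (N i) (ind (s i) Set.univ) n) X := by
    intro i n hn
    exact win_sup _ _ (hN i) n (right_ne_zero_of_mul hn)
  have h3 := ap_tel (k := k) (X := X) (s := s) (fun i => win (M i) (N i) (ind (s i) (S i)))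
    (fun i n => δ i * win (M i) (N i) (ind (s i) Set.univ) n) (E := ε / (k + 2) * X ^ 2) (by
      intro j hj g hg hgj
      have e2 : (fun n => win (M j) (N j) (ind (s j) (S j)) n - δ j * win (M j) (N j) (ind (s j) Set.univ) n)
          = win (M j) (N j) (bal (s j) (S j) (δ j)) := by
        ext n
        unfold win bal
        have : ind (s j) Set.univ n = 1 := by unfold ind; simp
        rw [this]
        split_ifs <;> ring
      rw [e2] at hgj
      have hmem : bal (s j) (S j) (δ j) ∈ Bal (s j) := ⟨S j, hS j, δ j, hδ j, rfl⟩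
      refine h X (by omega) s hs g ?_ ?_ j hj ?_
      · intro i
        by_cases hij : i = j
        · rw [hij, hgj]; exact win_abs (fun n => Bal_abs (hs j) hmem n) _ _
        · rcases hg i hij with hh | hh
          · rw [hh]; exact ha i
          · rw [hh]; exact hb i
      · intro i
        by_cases hij : i = j
        · rw [hij, hgj]; exact win_sup _ _ (hN j)
        · rcases hg i hij with hh | hh
          · rw [hh]; exact hsa i
          · rw [hh]; exact hsb i
      · rw [hgj]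
        rcases hs j with hh | hh
        · rw [hh] at hmem ⊢
          exact h1 X (by omega) _ hmem _ _ (hM j) (hN j)
        · rw [hh] at hmem ⊢
          exact h2 X (by omega) _ hmem _ _ (hM j) (hN j))
  refine h3.trans (le_of_eq ?_)
  field_simp

end Pool.Agent.W36.GV
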